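import Mathlib

set_option autoImplicit false

namespace Pool.Agent.Results.MP_e7d72a_nt.Unbounded

open Polynomial Filter Topology

/-- The shift radix system `tau_r (z_0,...,z_{d-1}) = (z_1,...,z_{d-1}, -floor (r z))`. -/
noncomputable def tau {d : ℕ} (r : Fin d → ℝ) (z : Fin d → ℤ) : Fin d → ℤ :=
  fun i => if h : i.val + 1 < d then z ⟨i.val + 1, h⟩ else -⌊∑ j, r j * (z j : ℝ)⌋

/-- The polynomial `chi_r = X^d + r_{d-1} X^{d-1} + ... + r_0`. -/
noncomputable def chi {d : ℕ} (r : Fin d → ℝ) : ℝ[X] :=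
  X ^ d + ∑ j : Fin d, C (r j) * X ^ j.val

/-- The Schur-Cohn region: all complex roots of `chi_r` lie in the open unit disc. -/
def E (d : ℕ) : Set (Fin d → ℝ) := {r | ∀ l : ℂ, aeval l (chi r) = 0 → ‖l‖ < 1}

/-- The part of the boundary with a non-real root of modulus one. -/
def EC (d : ℕ) : Set (Fin d → ℝ) :=
  {r | r ∈ closure (E d) ∧ ∃ l : ℂ, aeval l (chi r) = 0 ∧ l.im ≠ 0 ∧ ‖l‖ = 1}

/-- Ultimately periodic orbit. -/
def UltPeriodic {d : ℕ} (r : Fin d → ℝ) (z : Fin d → ℤ) : Prop :=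
  ∃ n p : ℕ, 1 ≤ p ∧ (tau r)^[n + p] z = (tau r)^[n] z

noncomputable def rr (s : ℝ) : Fin 4 → ℝ := ![9 / 10 * s, 13 / 10 * s, 9 / 10 + s, 13 / 10]

lemma chi_eval {A : Type} [CommRing A] [Algebra ℝ A] (s : ℝ) (l : A) :
    aeval l (chi (rr s)) =
      (l ^ 2 + algebraMap ℝ A s) *
        (l ^ 2 + algebraMap ℝ A (13 / 10) * l + algebraMap ℝ A (9 / 10)) := by
  simp only [chi, rr, Fin.sum_univ_four, map_add, map_mul, map_pow, aeval_X, aeval_C,
    Matrix.cons_val_zero, Matrix.cons_val_one, Matrix.cons_val]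
  simp only [Fin.val_zero, Fin.val_one, Fin.val_two, show (3 : Fin 4).val = 3 from rfl]
  ring

lemma mem_E (s : ℝ) (h0 : 0 ≤ s) (h1 : s < 1) : rr s ∈ E 4 := by
  intro l hl
  rw [chi_eval] at hl
  have key : ‖l‖ ^ 2 < 1 := by
    rcases mul_eq_zero.mp hl with h | h
    · have : l ^ 2 = -(s : ℂ) := eq_neg_of_add_eq_zero_left h
      rw [← norm_pow, this, norm_neg, Complex.norm_real, Real.norm_eq_abs, abs_of_nonneg h0]
      exact h1
    · have hre := congrArg Complex.re h
      have him := congrArg Complex.im h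
      simp [sq] at hre him
      rw [Complex.sq_norm, Complex.normSq_apply]
      have : l.im * (2 * l.re + 13 / 10) = 0 := by linarith
      rcases mul_eq_zero.mp this with h2 | h2
      · rw [h2] at hre; nlinarith [sq_nonneg (l.re + 13 / 20)]
      · have : l.re = -13 / 20 := by linarith
        rw [this] at hre ⊢; nlinarith
  nlinarith [norm_nonneg l]

lemma mem_closure_E : rr 1 ∈ closure (E 4) := by
  have hc : Continuous rr := by
    unfold rr
    refine continuous_pi fun i => ?_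
    fin_cases i <;> simp <;> fun_prop
  have ht : Tendsto rr (𝓝[<] 1) (𝓝 (rr 1)) := (hc.tendsto 1).mono_left nhdsWithin_le_nhds
  refine mem_closure_of_tendsto ht ?_
  filter_upwards [Ioo_mem_nhdsLT (show (0 : ℝ) < 1 by norm_num)] with s hs
  exact mem_E s hs.1.le hs.2

lemma tau_step (a b c d e : ℤ) (h1 : -10 * e ≤ 9 * a + 13 * b + 19 * c + 13 * d)
    (h2 : 9 * a + 13 * b + 19 * c + 13 * d < -10 * e + 10) :
    tau (rr 1) ![a, b, c, d] = ![b, c, d, e] := by
  have hf : ⌊∑ j, rr 1 j * ((![a, b, c, d] : Fin 4 → ℤ) j : ℝ)⌋ = -e := by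
    rw [Int.floor_eq_iff]
    have h1' : (-10 * e : ℝ) ≤ 9 * a + 13 * b + 19 * c + 13 * d := by exact_mod_cast h1
    have h2' : (9 * a + 13 * b + 19 * c + 13 * d : ℝ) < -10 * e + 10 := by exact_mod_cast h2
    simp [rr, Fin.sum_univ_four]
    constructor <;> linarith
  funext i
  unfold tau
  rw [hf]
  fin_cases i <;> simp

lemma eight (k : ℤ) :
    (tau (rr 1))^[8] ![-k, 0, k + 2, 1] = ![-(k + 1), 0, (k + 1) + 2, 1] := by
  simp only [Function.iterate_succ, Function.iterate_zero, Function.comp, id]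
  rw [tau_step _ _ _ _ (-k - 5) (by omega) (by omega), tau_step _ _ _ _ 2 (by omega) (by omega),
    tau_step _ _ _ _ (k + 4) (by omega) (by omega), tau_step _ _ _ _ (-3) (by omega) (by omega),
    tau_step _ _ _ _ (-(k + 1)) (by omega) (by omega), tau_step _ _ _ _ 0 (by omega) (by omega),
    tau_step _ _ _ _ (k + 1 + 2) (by omega) (by omega), tau_step _ _ _ _ 1 (by omega) (by omega)]

lemma orbit (k : ℕ) :
    (tau (rr 1))^[8 * k] ![0, 0, 2, 1] = ![-(k : ℤ), 0, (k : ℤ) + 2, 1] := by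
  induction k with
  | zero => simp
  | succ k ih =>
    rw [show 8 * (k + 1) = 8 + 8 * k by ring, Function.iterate_add_apply, ih, eight]
    push_cast; rfl

lemma not_periodic : ¬ UltPeriodic (rr 1) ![0, 0, 2, 1] := by
  rintro ⟨n, p, hp, h⟩
  have h1 : ∀ m, (tau (rr 1))^[n + m * p] ![0, 0, 2, 1] = (tau (rr 1))^[n] ![0, 0, 2, 1] := by
    intro m
    induction m with
    | zero => simp
    | succ m ih =>
      rw [show n + (m + 1) * p = p + (n + m * p) by ring, Function.iterate_add_apply, ih,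
        ← Function.iterate_add_apply, add_comm, h]
  have h2 : (tau (rr 1))^[8 * (n + p)] ![0, 0, 2, 1] = (tau (rr 1))^[8 * n] ![0, 0, 2, 1] := by
    rw [show 8 * (n + p) = 7 * n + (n + 8 * p) by ring, Function.iterate_add_apply, h1,
      ← Function.iterate_add_apply]
    congr 1; ring
  rw [orbit, orbit] at h2
  have := congrFun h2 0
  simp at this
  omega

theorem result :
    ∃ (d : ℕ) (r : Fin d → ℝ) (z : Fin d → ℤ), 2 ≤ d ∧ r ∈ EC d ∧
      (chi r).eval 1 ≠ 0 ∧ (chi r).eval (-1) ≠ 0 ∧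
      (∀ l : ℂ, aeval l (chi r) = 0 → aeval l (derivative (chi r)) ≠ 0) ∧
      ¬ UltPeriodic r z := by
  refine ⟨4, rr 1, ![0, 0, 2, 1], by norm_num, ⟨mem_closure_E, Complex.I, ?_, by simp, by simp⟩,
    ?_, ?_, ?_, not_periodic⟩
  · rw [chi_eval]; simp
  · rw [← coe_aeval_eq_eval, chi_eval]; norm_num
  · rw [← coe_aeval_eq_eval, chi_eval]; norm_num
  · intro l h1 h2
    have e : chi (rr 1) = _ := (aeval_X_left_apply (chi (rr 1))).symm.trans (chi_eval 1 X)
    rw [e] at h1 h2
    simp at h2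
    simp only [map_mul, map_add, map_pow, aeval_X, algebraMap_eq, aeval_C] at h1
    simp only [Complex.coe_algebraMap] at h1
    push_cast at h1
    have : (1 : ℂ) = 0 := by
      linear_combination (129136 / 275995 - 1641237 / 551990 * l - 57292 / 55199 * l ^ 2) * h1
        + (122902 / 275995 + 31893 / 110398 * l + 456859 / 551990 * l ^ 2
          + 14323 / 55199 * l ^ 3) * h2
    exact one_ne_zero this

end Pool.Agent.Results.MP_e7d72a_nt.Unbounded
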